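import Pool.Agent.Helper52.FF.StmtTwoPaths

/-! Packet A9 (facts about enumerations) of MP_7cb822_co. -/

namespace Helper52FF

open Finset
open Pool.Agent.Helper34.FF
open scoped symmDiff Classical

section
variable {V F : Type} [Fintype V] [Fintype F] {T : Tri V F} {S : Finset F} {l : ℕ} {c : ℤ → V}

lemma per_mul (h : T.Enum S l c) (i : ℤ) (m : ℤ) : c (i + m * l) = c i := by
  have hn : ∀ n : ℕ, ∀ i : ℤ, c (i + n * l) = c i := by
    intro n
    induction n with
    | zero => intro i; simp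
    | succ n ih =>
      intro i
      have : i + ((n + 1 : ℕ) : ℤ) * l = (i + n * l) + l := by push_cast; ring
      rw [this, h.per, ih]
  rcases Int.le_total 0 m with hm | hm
  · obtain ⟨n, rfl⟩ := Int.eq_ofNat_of_zero_le hm
    exact hn n i
  · obtain ⟨n, hn'⟩ := Int.eq_ofNat_of_zero_le (by omega : 0 ≤ -m)
    have hm' : m = -(n : ℤ) := by omega
    rw [hm']
    have := hn n (i + -(n : ℤ) * l)
    rw [← this]
    congr 1
    ring

lemma c_eq_iff (h : T.Enum S l c) (i j : ℤ) : c i = c j ↔ (l : ℤ) ∣ i - j := by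
  refine ⟨h.inj i j, ?_⟩
  rintro ⟨m, hm⟩
  have : i = j + m * l := by rw [mul_comm]; omega
  rw [this, per_mul h]

lemma E_eq_iff (h : T.Enum S l c) (i j : ℤ) :
    s(c i, c (i + 1)) = s(c j, c (j + 1)) ↔ (l : ℤ) ∣ i - j := by
  constructor
  · intro he
    rw [Sym2.eq_iff] at he
    rcases he with ⟨h1, -⟩ | ⟨h1, h2⟩
    · exact h.inj i j h1
    · exfalso
      have d1 := h.inj _ _ h1
      have d2 := h.inj _ _ h2
      have d3 : (l : ℤ) ∣ 2 := by
        have := dvd_sub d2 d1
        have e : (i + 1 - j) - (i - (j + 1)) = 2 := by ring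
        rwa [e] at this
      have := Int.le_of_dvd (by norm_num) d3
      have := h.three
      omega
  · intro hd
    have h1 := (c_eq_iff h i j).2 hd
    have h2 := (c_eq_iff h (i + 1) (j + 1)).2 (by rwa [show i + 1 - (j + 1) = i - j by ring])
    rw [h1, h2]

lemma small_dvd {l a : ℤ} (h : l ∣ a) (h1 : -l < a) (h2 : a < l) : a = 0 := by
  have hl : 0 < l := by omega
  rcases lt_trichotomy a 0 with h3 | h3 | h3
  · have := Int.le_of_dvd (by omega : 0 < -a) ((dvd_neg).2 h)
    omega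
  · exact h3
  · have := Int.le_of_dvd h3 h
    omega

lemma arc_inj (h : T.Enum S l c) {i j : ℤ} (hj : j ≤ i + l) :
    Set.InjOn (fun t => s(c t, c (t + 1))) (Ico i j : Finset ℤ) := by
  intro s hs t ht he
  rw [mem_coe, mem_Ico] at hs ht
  have := small_dvd ((E_eq_iff h s t).1 he) (by omega) (by omega)
  omega

lemma edge_rep (h : T.Enum S l c) (i m : ℤ) : ∃ t, i ≤ t ∧ t < i + l ∧ c t = c m ∧
    s(c t, c (t + 1)) = s(c m, c (m + 1)) := by
  have hl : (0 : ℤ) < l := by have := h.three; omega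
  refine ⟨i + (m - i) % l, by have := Int.emod_nonneg (m - i) hl.ne'; omega,
    by have := Int.emod_lt_of_pos (m - i) hl; omega, ?_, ?_⟩
  · rw [c_eq_iff h]
    refine ⟨-((m - i) / l), ?_⟩
    have := Int.mul_ediv_add_emod (m - i) l
    rw [mul_neg]
    omega
  · rw [E_eq_iff h]
    refine ⟨-((m - i) / l), ?_⟩
    have := Int.mul_ediv_add_emod (m - i) l
    rw [mul_neg]
    omega

lemma mem_arcE {V : Type} {c : ℤ → V} {i j : ℤ} {e : Sym2 V} :
    e ∈ arcE c i j ↔ ∃ t, (i ≤ t ∧ t < j) ∧ s(c t, c (t + 1)) = e := by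
  simp [arcE, mem_image, mem_Ico]

lemma arc_sub (h : T.Enum S l c) (i j : ℤ) : arcE c i j ⊆ T.bdry S := by
  intro e he
  rw [mem_arcE] at he
  obtain ⟨t, -, rfl⟩ := he
  exact (h.bd _).2 ⟨t, rfl⟩

lemma arc_full (h : T.Enum S l c) (i : ℤ) : arcE c i (i + l) = T.bdry S := by
  apply Subset.antisymm (arc_sub h _ _)
  intro e he
  obtain ⟨m, rfl⟩ := (h.bd e).1 he
  obtain ⟨t, h1, h2, -, h4⟩ := edge_rep h i m
  rw [mem_arcE]
  exact ⟨t, ⟨h1, h2⟩, h4⟩

lemma arc_card (h : T.Enum S l c) {i j : ℤ} (hj : j ≤ i + l) :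
    (arcE c i j).card = (j - i).toNat := by
  rw [arcE, card_image_of_injOn (arc_inj h hj), Int.card_Ico]

lemma len_eq (h : T.Enum S l c) : T.len S = l := by
  have h1 := arc_card h (le_refl ((0 : ℤ) + l))
  rw [arc_full h] at h1
  rw [Tri.len, h1]
  omega

lemma mem_Vbd (h : T.Enum S l c) (v : V) : v ∈ T.Vbd S ↔ ∃ i, v = c i := by
  rw [Tri.Vbd, mem_filter]
  constructor
  · rintro ⟨-, e, he, hv⟩
    obtain ⟨i, rfl⟩ := (h.bd e).1 he
    rw [Sym2.mem_iff] at hv
    rcases hv with hv | hv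
    · exact ⟨i, hv⟩
    · exact ⟨i + 1, hv⟩
  · rintro ⟨i, rfl⟩
    exact ⟨mem_univ _, s(c i, c (i + 1)), (h.bd _).2 ⟨i, rfl⟩, Sym2.mem_mk_left _ _⟩

lemma Vbd_card (h : T.Enum S l c) : (T.Vbd S).card = l := by
  have e : T.Vbd S = (Ico (0 : ℤ) (0 + l)).image c := by
    ext v
    rw [mem_Vbd h, mem_image]
    constructor
    · rintro ⟨i, rfl⟩
      obtain ⟨t, h1, h2, h3, -⟩ := edge_rep h 0 i
      exact ⟨t, mem_Ico.2 ⟨h1, h2⟩, h3⟩
    · rintro ⟨t, -, rfl⟩
      exact ⟨t, rfl⟩
  rw [e, card_image_of_injOn, Int.card_Ico]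
  · omega
  · intro s hs t ht he
    rw [mem_coe, mem_Ico] at hs ht
    have := small_dvd (h.inj s t he) (by omega) (by omega)
    omega

lemma edges_at (h : T.Enum S l c) (i : ℤ) (g : Sym2 V) (hg : g ∈ T.bdry S) (hv : c i ∈ g) :
    g = s(c (i - 1), c i) ∨ g = s(c i, c (i + 1)) := by
  obtain ⟨j, rfl⟩ := (h.bd g).1 hg
  rw [Sym2.mem_iff] at hv
  rcases hv with hv | hv
  · right
    have := h.inj _ _ hv
    exact ((E_eq_iff h i j).2 this).symm
  · left
    have h1 := h.inj _ _ hv
    have h2 := (E_eq_iff h (i - 1) j).2 (by rwa [show i - 1 - j = i - (j + 1) by ring])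
    rw [sub_add_cancel] at h2
    exact h2.symm

lemma prev_ne (h : T.Enum S l c) (i : ℤ) : s(c (i - 1), c i) ≠ s(c i, c (i + 1)) := by
  intro he
  have h1 : s(c (i - 1), c (i - 1 + 1)) = s(c i, c (i + 1)) := by rw [sub_add_cancel]; exact he
  rw [E_eq_iff h] at h1
  have := h.three
  have := small_dvd h1 (by omega) (by omega)
  omega

lemma prev_mem (h : T.Enum S l c) (i : ℤ) : s(c (i - 1), c i) ∈ T.bdry S :=
  (h.bd _).2 ⟨i - 1, by rw [sub_add_cancel]⟩

lemma bond (h : T.Enum S l c) (hT : T.Sphere) (h2 : StmtBond) : T.Bond S := by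
  apply (h2 V F T hT).1
  · exact ⟨s(c 0, c (0 + 1)), (h.bd _).2 ⟨0, rfl⟩⟩
  · intro Z hZ hev
    have step : ∀ i : ℤ, s(c (i - 1), c i) ∈ Z ↔ s(c i, c (i + 1)) ∈ Z := by
      intro i
      exact pair_lemma Z hev (c i) _ _ (Sym2.mem_mk_right _ _) (Sym2.mem_mk_left _ _)
        (fun g hg hv => edges_at h i g (hZ hg) hv)
    have step' : ∀ i : ℤ, s(c i, c (i + 1)) ∈ Z ↔ s(c (i + 1), c (i + 1 + 1)) ∈ Z := by
      intro i
      have := step (i + 1)
      rw [add_sub_cancel_right] at this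
      exact this
    have all : ∀ i : ℤ, s(c i, c (i + 1)) ∈ Z ↔ s(c 0, c (0 + 1)) ∈ Z := by
      intro i
      induction i with
      | zero => exact Iff.rfl
      | succ n ih => rw [← ih]; exact (step' n).symm
      | pred n ih =>
        rw [← ih]
        have := step' (-(n : ℤ) - 1)
        rw [sub_add_cancel] at this
        rw [sub_add_cancel]
        exact this
    by_cases h0 : s(c 0, c (0 + 1)) ∈ Z
    · right
      apply Subset.antisymm hZ
      intro e he
      obtain ⟨i, rfl⟩ := (h.bd e).1 he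
      exact (all i).2 h0
    · left
      rw [eq_empty_iff_forall_notMem]
      intro e he
      obtain ⟨i, rfl⟩ := (h.bd e).1 (hZ he)
      exact h0 ((all i).1 he)

end

theorem pf_StmtEnumFacts (h1 : StmtAlg) (h2 : StmtBond) : StmtEnumFacts := by
  intro V F _ _ T hT S l c h
  have hl : (3 : ℤ) ≤ l := by have := h.three; omega
  refine ⟨bond h hT h2, len_eq h, Vbd_card h, mem_Vbd h, ?_, ?_, ?_, ?_, ?_, ?_⟩
  · intro v hv
    obtain ⟨i, rfl⟩ := (mem_Vbd h v).1 hv
    have e : (T.bdry S).filter (fun e => c i ∈ e) = {s(c (i - 1), c i), s(c i, c (i + 1))} := by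
      ext g
      rw [mem_filter, mem_insert, mem_singleton]
      constructor
      · rintro ⟨hg, hv⟩
        exact edges_at h i g hg hv
      · rintro (rfl | rfl)
        · exact ⟨prev_mem h i, Sym2.mem_mk_right _ _⟩
        · exact ⟨(h.bd _).2 ⟨i, rfl⟩, Sym2.mem_mk_left _ _⟩
    rw [e, card_pair (prev_ne h i)]
  · intro i j hij hjl
    have hdis : Disjoint (arcE c i j) (arcE c j (i + l)) := by
      rw [disjoint_left]
      intro e he he'
      rw [mem_arcE] at he he'
      obtain ⟨s, hs, rfl⟩ := he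
      obtain ⟨t, ht, ht2⟩ := he'
      have := small_dvd ((E_eq_iff h t s).1 ht2) (by omega) (by omega)
      omega
    refine ⟨arc_card h hjl, arc_sub h _ _, ?_, hdis⟩
    have e1 : arcE c i j ∆ arcE c j (i + l) = arcE c i j ∪ arcE c j (i + l) := by
      rw [hdis.symmDiff_eq_sup]; rfl
    rw [e1, ← arc_full h i]
    ext e
    rw [mem_union, mem_arcE, mem_arcE, mem_arcE]
    constructor
    · rintro (⟨t, ht, rfl⟩ | ⟨t, ht, rfl⟩)
      · exact ⟨t, ⟨by omega, by omega⟩, rfl⟩
      · exact ⟨t, ⟨by omega, by omega⟩, rfl⟩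
    · rintro ⟨t, ht, rfl⟩
      rcases lt_or_ge t j with h3 | h3
      · exact Or.inl ⟨t, ⟨ht.1, h3⟩, rfl⟩
      · exact Or.inr ⟨t, ⟨h3, ht.2⟩, rfl⟩
  · intro i j hij hjl
    have hk : (((j - i).toNat : ℕ) : ℤ) = j - i := by omega
    refine ⟨⟨?_, ?_, ?_⟩, ?_, ?_⟩
    · show c (i + (0 : ℕ)) = c i
      simp
    · show c (i + ((j - i).toNat : ℕ)) = c j
      rw [hk]
      congr 1
      ring
    · intro t _
      show T.G.Adj (c (i + t)) (c (i + (t + 1 : ℕ)))
      have := h.adj (i + t)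
      push_cast
      rw [← add_assoc]
      exact this
    · intro m hm n hn he
      have he' : c (i + (m : ℤ)) = c (i + (n : ℤ)) := he
      have := small_dvd (h.inj _ _ he') (by omega) (by omega)
      omega
    · ext e
      rw [mem_wE, mem_arcE]
      constructor
      · rintro ⟨t, ht, rfl⟩
        refine ⟨i + t, ⟨by omega, by omega⟩, ?_⟩
        show s(c (i + t), c (i + t + 1)) = s(c (i + (t : ℕ)), c (i + (t + 1 : ℕ)))
        push_cast
        rw [← add_assoc]
      · rintro ⟨t, ht, rfl⟩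
        refine ⟨(t - i).toNat, by omega, ?_⟩
        have e1 : (((t - i).toNat : ℕ) : ℤ) = t - i := by omega
        show s(c (i + ((t - i).toNat : ℕ)), c (i + ((t - i).toNat + 1 : ℕ))) = s(c t, c (t + 1))
        push_cast
        rw [e1]
        have e2 : i + (t - i) = t := by ring
        have e3 : i + (t - i + 1) = t + 1 := by ring
        rw [e2, e3]
  · refine ⟨h.three, h.per, h.inj, h.adj, ?_⟩
    intro e
    rw [(h1 V F T).2.1 S]
    exact h.bd e
  · refine ⟨h.three, ?_, ?_, ?_, ?_⟩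
    · intro i
      show c (-(i + l)) = c (-i)
      have := h.per (-(i + l))
      rw [← this]
      congr 1
      ring
    · intro i j he
      have := h.inj (-i) (-j) he
      have e : i - j = -(-i - -j) := by ring
      rw [e]
      exact (dvd_neg).2 this
    · intro i
      show T.G.Adj (c (-i)) (c (-(i + 1)))
      have := h.adj (-(i + 1))
      have e : -(i + 1) + 1 = -i := by ring
      rw [e] at this
      exact this.symm
    · intro e
      rw [h.bd]
      constructor
      · rintro ⟨i, rfl⟩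
        refine ⟨-(i + 1), ?_⟩
        show s(c i, c (i + 1)) = s(c (- -(i + 1)), c (-(-(i + 1) + 1)))
        have e1 : - -(i + 1) = i + 1 := by ring
        have e2 : -(-(i + 1) + 1) = i := by ring
        rw [e1, e2, Sym2.eq_swap]
      · rintro ⟨i, rfl⟩
        refine ⟨-(i + 1), ?_⟩
        show s(c (-i), c (-(i + 1))) = s(c (-(i + 1)), c (-(i + 1) + 1))
        have e2 : -(i + 1) + 1 = -i := by ring
        rw [e2, Sym2.eq_swap]
  · intro s
    refine ⟨h.three, ?_, ?_, ?_, ?_⟩
    · intro i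
      show c (i + l + s) = c (i + s)
      rw [show i + (l : ℤ) + s = i + s + l by ring, h.per]
    · intro i j he
      have := h.inj _ _ he
      rwa [show i + s - (j + s) = i - j by ring] at this
    · intro i
      show T.G.Adj (c (i + s)) (c (i + 1 + s))
      rw [show i + 1 + s = i + s + 1 by ring]
      exact h.adj _
    · intro e
      rw [h.bd]
      constructor
      · rintro ⟨i, rfl⟩
        refine ⟨i - s, ?_⟩
        show s(c i, c (i + 1)) = s(c (i - s + s), c (i - s + 1 + s))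
        rw [show i - s + s = i by ring, show i - s + 1 + s = i + 1 by ring]
      · rintro ⟨i, rfl⟩
        refine ⟨i + s, ?_⟩
        show s(c (i + s), c (i + 1 + s)) = s(c (i + s), c (i + s + 1))
        rw [show i + 1 + s = i + s + 1 by ring]

end Helper52FF
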