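import Pool.Agent.Helper34.FF.Goals1

/-! Packet A10 (two paths) of MP_7cb822_co. -/

namespace Helper52FF

open Finset
open Pool.Agent.Helper34.FF
open scoped symmDiff Classical

lemma pair_lemma {V : Type} (Z : Finset (Sym2 V)) (hZ : EvenSet Z) (v : V) (e f : Sym2 V)
    (hev : v ∈ e) (hfv : v ∈ f) (honly : ∀ g ∈ Z, v ∈ g → g = e ∨ g = f) :
    e ∈ Z ↔ f ∈ Z := by
  have key : ∀ e f : Sym2 V, v ∈ e → v ∈ f → (∀ g ∈ Z, v ∈ g → g = e ∨ g = f) → e ∈ Z → f ∈ Z := by
    intro e f hev hfv ho he
    by_contra hf
    have h1 : Z.filter (fun g => v ∈ g) = {e} := by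
      ext g
      rw [mem_filter, mem_singleton]
      constructor
      · rintro ⟨h2, h3⟩
        rcases ho g h2 h3 with h4 | h4
        · exact h4
        · exact absurd (h4 ▸ h2) hf
      · rintro rfl
        exact ⟨he, hev⟩
    have h2 := hZ v
    rw [h1, card_singleton] at h2
    exact absurd h2 (by decide)
  exact ⟨key e f hev hfv honly, key f e hfv hev (fun g h1 h2 => (honly g h1 h2).symm)⟩

lemma path_all {V : Type} (Z : Finset (Sym2 V)) (hZ : EvenSet Z) (k : ℕ) (a : ℕ → V)
    (hI : Inj k a) (honly : ∀ i, 0 < i → i < k → ∀ g ∈ Z, a i ∈ g → g ∈ wE k a) :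
    ∀ i < k, (s(a i, a (i + 1)) ∈ Z ↔ s(a 0, a (0 + 1)) ∈ Z) := by
  intro i
  induction i with
  | zero => intro _; exact Iff.rfl
  | succ i ih =>
    intro hi
    rw [← ih (by omega)]
    refine (pair_lemma Z hZ (a (i + 1)) s(a i, a (i + 1)) s(a (i + 1), a (i + 1 + 1))
      (Sym2.mem_mk_right _ _) (Sym2.mem_mk_left _ _) ?_).symm
    intro g hg hag
    have h1 := honly (i + 1) (by omega) hi g hg hag
    rw [wE, mem_image] at h1
    obtain ⟨j, hj, rfl⟩ := h1
    rw [mem_range] at hj
    rw [Sym2.mem_iff] at hag
    rcases hag with h | h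
    · have := hI (i + 1) (by omega) j (by omega) h
      right; rw [this]
    · have := hI (i + 1) (by omega) (j + 1) (by omega) h
      left
      have : j = i := by omega
      rw [this]

lemma mem_wE {V : Type} {k : ℕ} {a : ℕ → V} {e : Sym2 V} :
    e ∈ wE k a ↔ ∃ i < k, s(a i, a (i + 1)) = e := by
  simp [wE, mem_image, mem_range]

theorem pf_StmtTwoPaths (h : StmtPar) : StmtTwoPaths := by
  intro V G k k' a a' x y hw hw' hxy hI hI' h3 hdis
  obtain ⟨-, hpar⟩ := h V G
  have hk : 0 < k := by
    rcases Nat.eq_zero_or_pos k with rfl | h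
    · exact absurd (hw.1.symm.trans hw.2.1) hxy
    · exact h
  have hk' : 0 < k' := by
    rcases Nat.eq_zero_or_pos k' with rfl | h
    · exact absurd (hw'.1.symm.trans hw'.2.1) hxy
    · exact h
  have hD : Disjoint (wE k a) (wE k' a') := by
    rw [disjoint_left]
    intro e he he'
    rw [mem_wE] at he he'
    obtain ⟨i, hi, rfl⟩ := he
    obtain ⟨j, hj, hj2⟩ := he'
    rw [Sym2.eq_iff] at hj2
    rcases hj2 with ⟨h1, h2⟩ | ⟨h1, h2⟩
    · have c1 := hdis i (by omega) j (by omega) h1.symm
      have c2 := hdis (i + 1) (by omega) (j + 1) (by omega) h2.symm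
      omega
    · have c1 := hdis i (by omega) (j + 1) (by omega) h2.symm
      omega
  obtain ⟨c1, p1⟩ := hpar k a x y hw hI
  obtain ⟨c2, p2⟩ := hpar k' a' x y hw' hI'
  refine ⟨hD, ?_, ?_, ?_⟩
  · rw [card_union_of_disjoint hD, c1, c2]
  · intro v
    rw [filter_union, card_union_of_disjoint (disjoint_filter_filter hD)]
    rw [Nat.even_add]
    have := p1 v
    have := p2 v
    rw [← Nat.not_even_iff_odd] at *
    tauto
  · intro Z hZ hev
    -- no inner vertex of the first path is on an edge of the second, and conversely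
    have o1 : ∀ i, 0 < i → i < k → ∀ g ∈ Z, a i ∈ g → g ∈ wE k a := by
      intro i hi0 hik g hg hag
      rcases mem_union.1 (hZ hg) with h | h
      · exact h
      · exfalso
        rw [mem_wE] at h
        obtain ⟨j, hj, rfl⟩ := h
        rw [Sym2.mem_iff] at hag
        rcases hag with h | h
        · have := hdis i (by omega) j (by omega) h
          omega
        · have := hdis i (by omega) (j + 1) (by omega) h
          omega
    have o2 : ∀ i, 0 < i → i < k' → ∀ g ∈ Z, a' i ∈ g → g ∈ wE k' a' := by
      intro i hi0 hik g hg hag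
      rcases mem_union.1 (hZ hg) with h | h
      · exfalso
        rw [mem_wE] at h
        obtain ⟨j, hj, rfl⟩ := h
        rw [Sym2.mem_iff] at hag
        rcases hag with h | h
        · have := hdis j (by omega) i (by omega) h.symm
          omega
        · have := hdis (j + 1) (by omega) i (by omega) h.symm
          omega
      · exact h
    have q1 := path_all Z hev k a hI o1
    have q2 := path_all Z hev k' a' hI' o2
    have q3 : s(a 0, a (0 + 1)) ∈ Z ↔ s(a' 0, a' (0 + 1)) ∈ Z := by
      apply pair_lemma Z hev x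
      · rw [hw.1]; exact Sym2.mem_mk_left _ _
      · rw [hw'.1]; exact Sym2.mem_mk_left _ _
      · intro g hg hxg
        rcases mem_union.1 (hZ hg) with h | h
        · rw [mem_wE] at h
          obtain ⟨j, hj, rfl⟩ := h
          rw [← hw.1, Sym2.mem_iff] at hxg
          rcases hxg with h | h
          · have := hI 0 (by omega) j (by omega) h
            left; rw [← this]
          · have := hI 0 (by omega) (j + 1) (by omega) h
            omega
        · rw [mem_wE] at h
          obtain ⟨j, hj, rfl⟩ := h
          rw [← hw'.1, Sym2.mem_iff] at hxg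
          rcases hxg with h | h
          · have := hI' 0 (by omega) j (by omega) h
            right; rw [← this]
          · have := hI' 0 (by omega) (j + 1) (by omega) h
            omega
    by_cases h0 : s(a 0, a (0 + 1)) ∈ Z
    · right
      apply Subset.antisymm hZ
      intro e he
      rcases mem_union.1 he with h | h
      · rw [mem_wE] at h
        obtain ⟨j, hj, rfl⟩ := h
        exact (q1 j hj).2 h0
      · rw [mem_wE] at h
        obtain ⟨j, hj, rfl⟩ := h
        exact (q2 j hj).2 (q3.1 h0)
    · left
      rw [eq_empty_iff_forall_notMem]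
      intro e he
      rcases mem_union.1 (hZ he) with h | h
      · rw [mem_wE] at h
        obtain ⟨j, hj, rfl⟩ := h
        exact h0 ((q1 j hj).1 he)
      · rw [mem_wE] at h
        obtain ⟨j, hj, rfl⟩ := h
        exact h0 (q3.2 ((q2 j hj).1 he))

end Helper52FF
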